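import Pool.Agent.Lib.MP_b07157_agH3.Main

/-!
# The strong monodromy conjecture for homogeneous polynomials in three variables

Let `f` be a homogeneous polynomial of degree `d > 0` in three variables. Then each pole `≠ -3/d` of
the motivic zeta function of `f`, and each such pole of its local version at the origin, is a root
of the Bernstein–Sato polynomial of `f` and of its local version at the origin (all poles are
negative by the formula for a resolution). The same holds for the pole `-3/d` under each of the
conditions in `CondThree`: the log canonical threshold of `f` is `3/d`; or a condition of
independence holds at the singular points of the curve `f = 0` (with arbitrary multiplicities of the
components) which are neither quasi-homogeneous nor ordinary multiple points of the reduced curve;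
or one of two conditions on the lines through one point of the curve holds; or `d ≤ 6`; or the
reduced curve has degree at most five.

The poles `≠ -3/d` come from the plane curve germs at the points of the curve, for which the
conjecture is proved in `MPb07157.PC.smcLoc_plane`. For the pole `-3/d` one shows that a
Bernstein–Sato polynomial which does not vanish at `-3/d` gives a vector field which kills `f`, has
divergence one and is defined up to trivial fields near each point of the curve. If the points are
quasi-homogeneous or ordinary, the local fields can be glued to a linear vector field, and then `f`
is Newton non-degenerate after a linear change of coordinates. At the other points the local
obstruction lies in a finite-dimensional space, dual to the quotient of the local ring by the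
divergences of the logarithmic vector fields, and the global fields with these obstructions pair to
zero with the forms of degree `n - 6`; the condition `IndepG` says that this space of obstructions
is zero. For a point with two special lines, or at most two branches over the pencil of lines, one
gets that `f` is, up to a shear, a monomial times a product of binomials, and `f` is stably
non-degenerate.
-/

namespace Pool.Agent.Results.MP_b07157_ag.HomogeneousThree

open MPb07157 MvPolynomial

theorem result (f : MvPolynomial (Fin 3) ℂ) (hf : f ≠ 0) (d : ℕ) (hd : 0 < d)
    (hh : f.IsHomogeneous d) (s₀ : ℚ) (hs : s₀ < 0) (h : s₀ = -(3 / d) → CondThree f d)
    (hs₀ : IsPole (Zmot f) s₀ ∨ IsPole (Zmot0 f) s₀) :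
    IsBernsteinSatoRoot f s₀ ∧ IsLocalBernsteinSatoRoot f s₀ :=
  smc_ternary hf hd hh hs h hs₀

end Pool.Agent.Results.MP_b07157_ag.HomogeneousThree
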