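import Pool.Agent.Lib.MP_b07157_agS4.SGraph

/-!
# The strong monodromy conjecture for stably non-degenerate polynomials

Let `f` be a polynomial in `n` variables, `n` arbitrary, which belongs to the smallest class of
polynomials vanishing at the origin (`StabGlob`) that contains

* the polynomials of degree at most four in three variables and the polynomials of degree at most three
  in four variables;
* the sums `f = g(x_1, …, x_k) + h_1(z_1) + ⋯ + h_r(z_r)` with non-constant polynomials `h_i` for which
  `k = 2`, or the rank of the Hessian matrix of `g` at `p` is at least `k - 2` for each critical zero
  `(p, z)` of `f`, or `k = 3` and `g` has degree at most three, or `k = 3` and for each critical zero
  this rank is positive, or `g` has multiplicity three at `p` and degree at most four or a nodal tangent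
  cone (and other cases of multiplicity three), and similar sums with `g` of degree at most three in
  four variables;
* the polynomials which are non-degenerate on all faces of their Newton polyhedron and on all faces of
  these faces;
* the polynomials whose critical zeros `p` are, outside finitely many points with germs in the class
  `StabGerm` and finitely many constructible sets along which `f` is trivial with a germ in `StabGerm`
  or a unit times a power of a semi-quasi-homogeneous polynomial, ordinary multiple points along smooth
  germs or points of corank at most two (isolated or not);
* the same for `n = 3` with double points, triple points with reduced tangent cone, points with Milnor
  number at most 14 and points with log canonical threshold greater than `7/8` (isolated or not), for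
  example all `f` for which the pair `(ℂ³, {f = 0})` is log canonical;
* the homogeneous polynomials in `StabGerm` (for example all homogeneous polynomials of degree at most
  four in four variables, and those of any degree in four variables with log canonical threshold
  greater than `7/8` outside the origin) and similar weighted homogeneous polynomials,

and is closed under polynomial automorphisms, powers, products in separate variables, and the passage
from `f + x_{n+1} x_{n+2}` to `f`. Then each pole of the motivic zeta function of `f` is a root of its
Bernstein–Sato polynomial (all poles are negative by the formula for a resolution). The class contains
`Φ(x, g(x))` if it contains `Φ(x, z) + w (z - g(x))`, see `MPb07157.StabGlob.graph`; so it contains the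
polynomials that become non-degenerate after a re-embedding. The class `StabGerm` of germs contains the
classes `StabLoc` and `TanLoc` and has the same closure properties.
-/

namespace Pool.Agent.Results.MP_b07157_ag.StableGlobal

open MPb07157 MvPolynomial

theorem result {n : ℕ} (f : MvPolynomial (Fin n) ℂ) (hf : f ≠ 0) (h : StabGlob n f)
    (s₀ : ℚ) (hs : s₀ < 0) (hs₀ : IsPole (Zmot f) s₀) : IsBernsteinSatoRoot f s₀ :=
  smc_stabGlob hf h s₀ hs hs₀

end Pool.Agent.Results.MP_b07157_ag.StableGlobal
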