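import Pool.Agent.Lib.MP_b07157_agS4.SClass

/-!
# The strong monodromy conjecture for stably non-degenerate germs

Let `f` be a polynomial in `n` variables, `n` arbitrary, with `f(0) = 0`, which belongs to the
smallest class of germs at the origin (`StabLoc`) that contains

* the germs of corank at most two, the suspensions of plane curve germs, the polynomials which are
  non-degenerate on the compact faces of their Newton polyhedron, the semi-quasi-homogeneous germs,
  the quasi-ordinary germs, the products of linear forms and the forms in three variables with the
  condition `CondThree`;
* the polynomials of degree at most four in three variables, the polynomials of degree at most three in
  four variables, and the homogeneous polynomials of degree four in four variables;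
* the sums `g(x_1, …, x_k) + h_1(z_1) + ⋯ + h_r(z_r)` with non-constant polynomials `h_i` for which
  `k = 2`, or the rank of the Hessian matrix of `g` at the origin is at least `k - 2`, or `k = 3` and `g`
  has degree at most three, or `k = 3` and `g` has multiplicity at most two, or multiplicity three and
  degree at most four, or multiplicity three and a nodal tangent cone (and other cases of multiplicity
  three), or `k = 4` and `g` has degree at most three and multiplicity at most two;
* the homogeneous polynomials in four variables whose log canonical threshold at each critical zero
  outside the origin is greater than `7/8` (cones over log canonical surfaces);
* the homogeneous polynomials whose critical points outside the origin are ordinary multiple points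
  along smooth germs, or of corank at most three, or (in four variables) double points or triple points
  with reduced tangent cone of the surface in the projective space, or lie on finitely many
  constructible sets along which the polynomial is trivial with a germ in the class or a unit times a
  power of a semi-quasi-homogeneous polynomial, with the condition `RootCond` at the number `-n/d` (it
  is satisfied, for example, if the degree `d` is `n`, or if the log canonical threshold is `n/d`, or if
  the projective hypersurface has only finitely many singular points, all of corank at most one),

and similar weighted homogeneous polynomials, and is closed under formal changes of coordinates,
powers, multiplication by units, products in separate variables and the passage from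
`f + x_{n+1} x_{n+2}` to `f`. Then each pole of the local motivic zeta function of `f` at the origin is
a root of the local Bernstein–Sato polynomial of `f` (all poles are negative by the formula for a
resolution).
-/

namespace Pool.Agent.Results.MP_b07157_ag.StableLocal

open MPb07157 MvPolynomial

theorem result {n : ℕ} (f : MvPolynomial (Fin n) ℂ) (hf : f ≠ 0) (h0 : coeff 0 f = 0)
    (h : StabLoc n f) (s₀ : ℚ) (hs : s₀ < 0) (hs₀ : IsPole (Zmot0 f) s₀) :
    IsLocalBernsteinSatoRoot f s₀ :=
  smc_stabLoc hf h0 h s₀ hs hs₀

end Pool.Agent.Results.MP_b07157_ag.StableLocal
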