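import Pool.Agent.Lib.MP_b07157_agS4.SClass

/-!
# The strong monodromy conjecture for (weighted) Lê–Yomdin germs

Let `f` be a polynomial in `n` variables, `n` arbitrary, with `f(0) = 0`, which belongs to the
smallest class of germs at the origin that contains

* the surface germs (`n = 3`) of multiplicity three whose tangent cone is reduced;
* the surface germs (`n = 3`) whose log canonical threshold is greater than `7/8`, for example the log
  canonical ones, and the surface germs whose Milnor number is at most 14;
* the germs `f = f_d + f_{d+e} + f_{d+e+1} + ⋯` of order `d ≥ 3` in `n ≥ 3` variables whose tangent
  cone `f_d = 0` has finitely many singular points `q` in the projective space, each of them a node,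
  or of corank one (`(n - 2) d ≤ 2 n`), or with `f_{d+e}(q) ≠ 0` (for `n = 3`, or if `q` is
  semi-quasi-homogeneous), or such that the strict transform of `f` at `q` is semi-quasi-homogeneous
  relative to the exceptional divisor, with a condition at the candidate pole `-n/d` (Lê–Yomdin
  germs, superisolated singularities, nodal tangent cones);
* the germs `f = f_D + f_{D+e} + ⋯` for positive weights, such that `f_D` has finitely many critical
  orbits, with the analogous conditions (weighted Lê–Yomdin germs),

and is closed under formal changes of coordinates, powers, multiplication by units, products in
separate variables, and the passage from `f + x_{n+1} x_{n+2}` to `f`. Then each pole of the local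
motivic zeta function of `f` at the origin is a root of the local Bernstein–Sato polynomial of `f`
(all poles are negative by the formula for a resolution).

Idea of the proof. The arcs are decomposed by their weighted order and their leading coefficients;
the arcs with non-critical leading coefficients give only the poles `-1` and `-∑ a_i/D`. The arcs near
a critical orbit are computed in the chart of the (weighted) blow-up; its contribution is a zeta
function of the pair of the strict transform and the exceptional divisor, whose poles are determined
by weighted orders again, or, for `n = 3`, by the infinitely near points of the plane curve germ. Each
number which can be a pole is the root belonging to an exceptional divisor `E` over `q`: if it were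
not a root, then the residue along `E` of the form `f^s dx` would be exact; but it is a form
`g^s dT` on the complement of a hypersurface, and the exactness is excluded by algebra (Koszul
relations; Beta integrals).
-/

namespace Pool.Agent.Results.MP_b07157_ag.TangentCone

open MPb07157 MvPolynomial

theorem result {n : ℕ} (f : MvPolynomial (Fin n) ℂ) (hf : f ≠ 0) (h0 : coeff 0 f = 0)
    (h : TanLoc n f) (s₀ : ℚ) (hs : s₀ < 0) (hs₀ : IsPole (Zmot0 f) s₀) :
    IsLocalBernsteinSatoRoot f s₀ :=
  smc_tanLoc hf h0 h s₀ hs hs₀

end Pool.Agent.Results.MP_b07157_ag.TangentCone
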